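import Pool.Agent.helper4.QX.SpecF
import Pool.Agent.helper49.QX.LIQ

/-!
# qf:ESB: sup bound of a convolution of an invariant function by its `L²` norm
-/

set_option autoImplicit false

open scoped MatrixGroups ContDiff Topology UpperHalfPlane
open UpperHalfPlane MeasureTheory ProbabilityTheory Filter Set Polynomial
open Pool.Agent.QU Pool.Agent.RP

namespace Pool.Agent.QX

/-- invariance of the convolution of an invariant function -/
theorem ESB_inv {Γ : Subgroup SL(2, ℝ)} {κ : ℝ → ℝ} {g : ℍ → ℝ} (hg : Inv Γ g) (γ : Γ) (z : ℍ) :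
    conv κ g (γ • z) = conv κ g z := by
  unfold conv
  have h6 := INV_d ℝ (γ : SL(2, ℝ)) (fun w : ℍ => κ (tt (γ • z) w) • g w)
  rw [← h6]
  refine integral_congr_ae (Filter.Eventually.of_forall fun w => ?_)
  show κ (tt (γ • z) ((γ : SL(2, ℝ)) • w)) • g ((γ : SL(2, ℝ)) • w) = κ (tt z w) • g w
  have e1 : tt ((γ : SL(2, ℝ)) • z) ((γ : SL(2, ℝ)) • w) = tt z w := TTT.2.2.2.1 (γ : SL(2, ℝ)) z w
  have e2 : g ((γ : SL(2, ℝ)) • w) = g w := hg.2 γ w
  rw [e2]
  congr 2

theorem ESB : ESB_stmt := by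
  intro Γ F hΓ hF
  obtain ⟨R₀, hR0, hR⟩ := TTT.2.2.2.2.2.1 1
  obtain ⟨K, hK, hFK⟩ := hF.rel
  have hK' : IsCompact (Metric.cthickening R₀ K) := hK.cthickening
  obtain ⟨n, hn⟩ := LIQ_cov hΓ hF hK'
  obtain ⟨mK, hmK⟩ : ∃ V₀ : ℝ, V₀ = (volume (Metric.cthickening R₀ K)).toReal := ⟨_, rfl⟩
  have hV0 : 0 ≤ mK := by rw [hmK]; exact ENNReal.toReal_nonneg
  refine ⟨1 + √(mK * n), by
    have := Real.sqrt_nonneg (mK * n)
    linarith, ?_⟩
  intro κ g M hκ hsupp hbd hg
  have hM0 : 0 ≤ M := (abs_nonneg _).trans (hbd 0 le_rfl)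
  obtain ⟨m, hm⟩ : ∃ m : ℝ, ∀ z, |g z| ≤ m := (A_BDD Γ F g hΓ hF hg).1
  have hgc : Continuous g := hg.1
  have key : ∀ z : ℍ, z ∈ F → |conv κ g z| ≤ (1 + √(mK * n)) * M * √(∫ w in F, g w ^ 2) := by
    intro z hz
    have hvol : volume (Metric.cthickening R₀ K) < ⊤ := hK'.measure_lt_top
    have hgm : Measurable fun v : ℍ => |g v| := hgc.abs.measurable
    have i1 : IntegrableOn (fun v => |g v|) (Metric.cthickening R₀ K) :=
      Measure.integrableOn_of_bounded hvol.ne hgm.aestronglyMeasurable (M := m) (Eventually.of_forall fun v => by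
        rw [Real.norm_eq_abs, abs_abs]
        exact hm v)
    have i2 : IntegrableOn (fun v => |g v| ^ 2) (Metric.cthickening R₀ K) :=
      Measure.integrableOn_of_bounded hvol.ne (hgm.pow_const 2).aestronglyMeasurable (M := m ^ 2)
        (Eventually.of_forall fun v => by
          rw [norm_pow, Real.norm_eq_abs, abs_abs]
          exact pow_le_pow_left₀ (abs_nonneg _) (hm v) 2)
    have e2 : |conv κ g z| ≤ M * ∫ v in Metric.cthickening R₀ K, |g v| := by
      rw [← integral_const_mul, ← integral_indicator hK'.measurableSet, ← Real.norm_eq_abs]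
      unfold conv
      refine (norm_integral_le_integral_norm _).trans ?_
      refine integral_mono_of_nonneg (Eventually.of_forall fun v => norm_nonneg _) ?_ (Eventually.of_forall fun v => ?_)
      · rw [integrable_indicator_iff hK'.measurableSet]
        exact i1.const_mul M
      · show ‖κ (tt z v) • g v‖ ≤ (Metric.cthickening R₀ K).indicator (fun v => M * |g v|) v
        rw [norm_smul, Real.norm_eq_abs, Real.norm_eq_abs]
        by_cases hv : tt z v ≤ 1
        · have hv' : v ∈ Metric.cthickening R₀ K := by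
            refine Metric.closedBall_subset_cthickening (hFK hz) R₀ ?_
            rw [Metric.mem_closedBall, dist_comm]
            exact hR z v hv
          rw [indicator_of_mem hv']
          exact mul_le_mul_of_nonneg_right (hbd _ (TTT.2.1 z v)) (abs_nonneg _)
        · push Not at hv
          rw [hsupp _ hv.le, abs_zero, zero_mul]
          exact indicator_nonneg (fun v _ => mul_nonneg hM0 (abs_nonneg _)) v
    have e3 := LIQ_cs hvol i1 i2
    have e4 := hn (fun v => |g v| ^ 2) (m ^ 2) (hgm.pow_const 2) (fun v => sq_nonneg _)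
      (fun v => pow_le_pow_left₀ (abs_nonneg _) (hm v) 2) (fun γ v => by
        show |g (γ • v)| ^ 2 = |g v| ^ 2
        rw [hg.2 γ v])
    have hI0 : 0 ≤ ∫ v in F, |g v| ^ 2 := integral_nonneg fun v => sq_nonneg _
    have e6 : ∫ v in F, |g v| ^ 2 = ∫ v in F, g v ^ 2 :=
      integral_congr_ae (Eventually.of_forall fun v => sq_abs (g v))
    have e5 : ∫ v in Metric.cthickening R₀ K, |g v| ≤ √(mK * n) * √(∫ v in F, g v ^ 2) := by
      rw [← Real.sqrt_mul (by positivity)]
      apply Real.le_sqrt_of_sq_le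
      rw [← hmK] at e3
      rw [← e6]
      refine e3.trans ?_
      rw [mul_assoc]
      exact mul_le_mul_of_nonneg_left e4 hV0
    calc |conv κ g z| ≤ M * ∫ v in Metric.cthickening R₀ K, |g v| := e2
      _ ≤ M * (√(mK * n) * √(∫ v in F, g v ^ 2)) := mul_le_mul_of_nonneg_left e5 hM0
      _ = √(mK * n) * M * √(∫ v in F, g v ^ 2) := by ring
      _ ≤ (1 + √(mK * n)) * M * √(∫ w in F, g w ^ 2) :=
          mul_le_mul_of_nonneg_right (mul_le_mul_of_nonneg_right (by linarith) hM0) (Real.sqrt_nonneg _)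
  intro z
  obtain ⟨γ, hγ, -⟩ := hF.uniq z
  have h1 := key (γ • z) hγ
  rwa [ESB_inv hg γ z] at h1

end Pool.Agent.QX
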